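import Mathlib

/-!
# A Kelley type theorem: finitely additive functions from positive intersection numbers
-/

set_option autoImplicit false

open Set

universe u

namespace Pool.Agent.H686R2.Kelley

variable {B : Type u} [BooleanAlgebra B]

/-- points: prime ideals of `B` -/
abbrev Pt (B : Type u) [BooleanAlgebra B] : Type u := {J : Order.Ideal B // J.IsPrime}

/-- characteristic function of (the clopen set of) `b` -/
noncomputable def chi (b : B) (J : Pt B) : ℝ := by
  classical exact if b ∈ J.1 then 0 else 1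

theorem chi_of_mem {b : B} {J : Pt B} (h : b ∈ J.1) : chi b J = 0 := if_pos h

theorem chi_of_notMem {b : B} {J : Pt B} (h : b ∉ J.1) : chi b J = 1 := if_neg h

theorem chi_nonneg (b : B) (J : Pt B) : 0 ≤ chi b J := by
  by_cases h : b ∈ J.1
  · rw [chi_of_mem h]
  · rw [chi_of_notMem h]; exact zero_le_one

theorem chi_le_one (b : B) (J : Pt B) : chi b J ≤ 1 := by
  by_cases h : b ∈ J.1
  · rw [chi_of_mem h]; exact zero_le_one
  · rw [chi_of_notMem h]

theorem chi_sup {b c : B} (hd : Disjoint b c) (J : Pt B) : chi (b ⊔ c) J = chi b J + chi c J := by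
  have h1 : b ⊔ c ∈ J.1 ↔ b ∈ J.1 ∧ c ∈ J.1 := Order.Ideal.sup_mem_iff
  have h2 : b ∈ J.1 ∨ c ∈ J.1 := by
    apply J.2.mem_or_mem
    rw [disjoint_iff.1 hd]
    exact J.1.bot_mem
  by_cases hb : b ∈ J.1
  · by_cases hc : c ∈ J.1
    · rw [chi_of_mem hb, chi_of_mem hc, chi_of_mem (h1.2 ⟨hb, hc⟩)]; simp
    · rw [chi_of_mem hb, chi_of_notMem hc, chi_of_notMem (fun h => hc (h1.1 h).2)]; simp
  · have hc : c ∈ J.1 := h2.resolve_left hb
    rw [chi_of_notMem hb, chi_of_mem hc, chi_of_notMem (fun h => hb (h1.1 h).1)]; simp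

theorem exists_pt {c : B} (hc : c ≠ ⊥) : ∃ J : Pt B, c ∉ J.1 := by
  have hdis : Disjoint (Order.PFilter.principal c : Set B) (⊥ : Order.Ideal B) := by
    rw [Set.disjoint_left]
    intro x hx hx2
    have h1 : c ≤ x := hx
    have h2 : x = ⊥ := le_bot_iff.1 hx2
    exact hc (le_bot_iff.1 (h2 ▸ h1))
  obtain ⟨J, hJ, -, h2⟩ := DistribLattice.prime_ideal_of_disjoint_filter_ideal hdis
  exact ⟨⟨J, hJ⟩, fun h => Set.disjoint_left.1 h2 (show c ≤ c from le_rfl) h⟩

/-- Hahn-Banach part of Kelley's theorem. -/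
theorem kelley (C : Set B) (δ : ℝ) (hδ : 0 < δ)
    (h : ∀ (ι : Type) (t : Finset ι) (w : ι → ℝ) (z : ι → B), (∀ i ∈ t, 0 ≤ w i) →
      ∑ i ∈ t, w i = 1 → (∀ i ∈ t, z i ∈ C) → ∃ J : Pt B, δ ≤ ∑ i ∈ t, w i * chi (z i) J) :
    ∃ ν : B → ℝ, (∀ b, 0 ≤ ν b) ∧ (∀ b, ν b ≤ 1) ∧
      (∀ b c, Disjoint b c → ν (b ⊔ c) = ν b + ν c) ∧ ∀ b ∈ C, δ ≤ ν b := by
  classical
  rcases C.eq_empty_or_nonempty with hCe | ⟨b₀, hb₀⟩
  · exact ⟨fun _ => 0, by simp, by simp, by simp, by simp [hCe]⟩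
  let : TopologicalSpace (Pt B) := ⊥
  have : DiscreteTopology (Pt B) := ⟨rfl⟩
  let E := BoundedContinuousFunction (Pt B) ℝ
  let X : B → E := fun b => BoundedContinuousFunction.mkOfDiscrete (chi b) 1 (by
    intro x y
    rw [Real.dist_eq, abs_le]
    have h1 := chi_nonneg b x
    have h2 := chi_nonneg b y
    have h3 := chi_le_one b x
    have h4 := chi_le_one b y
    constructor <;> linarith)
  have hX : ∀ b J, X b J = chi b J := fun _ _ => rfl
  let U : Set E := {g | ∃ s < δ, ∀ J, g J ≤ s}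
  have hUc : Convex ℝ U := by
    rintro g ⟨s, hs, hg⟩ k ⟨r, hr, hk⟩ α β hα hβ hαβ
    refine ⟨α * s + β * r, ?_, fun J => ?_⟩
    · rcases hα.eq_or_lt with h0 | h0
      · have : β = 1 := by linarith
        rw [← h0, this]; linarith
      · have h5 : α * s < α * δ := mul_lt_mul_of_pos_left hs h0
        have h6 : β * r ≤ β * δ := mul_le_mul_of_nonneg_left hr.le hβ
        have h7 : α * δ + β * δ = δ := by rw [← add_mul, hαβ, one_mul]
        linarith
    · show α * g J + β * k J ≤ α * s + β * r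
      exact add_le_add (mul_le_mul_of_nonneg_left (hg J) hα) (mul_le_mul_of_nonneg_left (hk J) hβ)
  have hUo : IsOpen U := by
    rw [Metric.isOpen_iff]
    rintro g ⟨s, hs, hg⟩
    refine ⟨(δ - s) / 2, by linarith, ?_⟩
    intro k hk
    refine ⟨s + (δ - s) / 2, by linarith, fun J => ?_⟩
    have h1 : dist (k J) (g J) ≤ dist k g := BoundedContinuousFunction.dist_coe_le_dist J
    have h2 : dist k g < (δ - s) / 2 := hk
    have h3 := (abs_le.1 (Real.dist_eq (k J) (g J) ▸ h1)).2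
    have := hg J
    linarith
  have hdisj : Disjoint U (convexHull ℝ (X '' C)) := by
    rw [Set.disjoint_left]
    rintro g ⟨s, hs, hg⟩ hgC
    rw [convexHull_eq] at hgC
    obtain ⟨ι, t, w, z, hw, hw1, hz, hgz⟩ := hgC
    have hz' : ∀ i : ι, ∃ b : B, i ∈ t → (b ∈ C ∧ X b = z i) := by
      intro i
      by_cases hi : i ∈ t
      · obtain ⟨b, hb, hbz⟩ := hz i hi
        exact ⟨b, fun _ => ⟨hb, hbz⟩⟩
      · exact ⟨⊥, fun h => absurd h hi⟩
    choose b hb using hz'
    obtain ⟨J, hJ⟩ := h ι t w b hw hw1 (fun i hi => (hb i hi).1)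
    have h1 : g J = ∑ i ∈ t, w i * chi (b i) J := by
      rw [← hgz, Finset.centerMass_eq_of_sum_1 _ _ hw1, BoundedContinuousFunction.coe_sum,
        Finset.sum_apply]
      refine Finset.sum_congr rfl fun i hi => ?_
      rw [← (hb i hi).2]
      rfl
    have h2 := hg J
    rw [h1] at h2
    linarith
  obtain ⟨φ, s, hφU, hφC⟩ := geometric_hahn_banach_open hUc hUo (convex_convexHull ℝ _) hdisj
  have h0 : (0 : E) ∈ U := ⟨0, hδ, fun J => le_rfl⟩
  have hs0 : 0 < s := by
    have := hφU 0 h0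
    rwa [map_zero] at this
  have hpos : ∀ g : E, (∀ J, 0 ≤ g J) → 0 ≤ φ g := by
    intro g hg
    by_contra hneg
    push Not at hneg
    have h1 : (s / φ g) • g ∈ U := by
      refine ⟨0, hδ, fun J => ?_⟩
      show (s / φ g) * g J ≤ 0
      exact mul_nonpos_of_nonpos_of_nonneg (div_nonpos_of_nonneg_of_nonpos hs0.le hneg.le) (hg J)
    have h2 := hφU _ h1
    rw [map_smul, smul_eq_mul, div_mul_cancel₀ _ hneg.ne] at h2
    exact lt_irrefl _ h2
  have hmono : ∀ g k : E, (∀ J, g J ≤ k J) → φ g ≤ φ k := by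
    intro g k hgk
    have := hpos (k - g) (fun J => by
      show 0 ≤ k J - g J
      linarith [hgk J])
    rw [map_sub] at this
    linarith
  let one : E := BoundedContinuousFunction.const _ 1
  have hCle : ∀ b ∈ C, s ≤ φ (X b) := fun b hb => hφC _ (subset_convexHull ℝ _ ⟨b, hb, rfl⟩)
  have hone : 0 < φ one := by
    have h1 : φ (X b₀) ≤ φ one := hmono _ _ fun J => by
      show chi b₀ J ≤ 1
      exact chi_le_one b₀ J
    linarith [hCle b₀ hb₀]
  have hδs : δ * φ one ≤ s := by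
    by_contra hlt
    push Not at hlt
    have h1 : (s / φ one) • one ∈ U := by
      refine ⟨s / φ one, ?_, fun J => ?_⟩
      · rwa [div_lt_iff₀ hone]
      · show (s / φ one) * 1 ≤ _
        rw [mul_one]
    have h2 := hφU _ h1
    rw [map_smul, smul_eq_mul, div_mul_cancel₀ _ hone.ne'] at h2
    exact lt_irrefl _ h2
  refine ⟨fun b => φ (X b) / φ one, fun b => ?_, fun b => ?_, fun b c hbc => ?_, fun b hb => ?_⟩
  · exact div_nonneg (hpos _ fun J => chi_nonneg b J) hone.le
  · rw [div_le_one hone]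
    exact hmono _ _ fun J => chi_le_one b J
  · have : X (b ⊔ c) = X b + X c := by
      ext J
      exact chi_sup hbc J
    show φ (X (b ⊔ c)) / φ one = φ (X b) / φ one + φ (X c) / φ one
    rw [this, map_add, add_div]
  · rw [le_div_iff₀ hone]
    exact hδs.trans (hCle b hb)

/-- integrating a combination of characteristic functions -/
theorem comb_le {L : BooleanSubalgebra B} (M : B → ℝ) (hM0 : ∀ b, 0 ≤ M b) (hMbot : M ⊥ = 0)
    (hadd : ∀ b ∈ L, ∀ c ∈ L, Disjoint b c → M (b ⊔ c) = M b + M c) {ι : Type}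
    (w : ι → ℝ) (z : ι → B) (t : Finset ι) : (∀ i ∈ t, z i ∈ L) →
    ∀ c ∈ L, ∀ s : ℝ, (∀ J : Pt B, c ∉ J.1 → ∑ i ∈ t, w i * chi (z i) J ≤ s) →
      ∑ i ∈ t, w i * M (z i ⊓ c) ≤ s * M c := by
  classical
  induction t using Finset.induction_on with
  | empty =>
    intro _ c _ s hs
    simp only [Finset.sum_empty] at hs ⊢
    by_cases hc : c = ⊥
    · rw [hc, hMbot, mul_zero]
    · obtain ⟨J, hJ⟩ := exists_pt hc
      exact mul_nonneg (hs J hJ) (hM0 c)
  | insert a t ha ih =>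
    intro hz c hc s hs
    have hza : z a ∈ L := hz a (Finset.mem_insert_self a t)
    have hzt : ∀ i ∈ t, z i ∈ L := fun i hi => hz i (Finset.mem_insert_of_mem hi)
    have hc1 : z a ⊓ c ∈ L := BooleanSubalgebra.inf_mem hza hc
    have hc2 : (z a)ᶜ ⊓ c ∈ L := BooleanSubalgebra.inf_mem (BooleanSubalgebra.compl_mem hza) hc
    have hd : Disjoint (z a ⊓ c) ((z a)ᶜ ⊓ c) :=
      Disjoint.mono inf_le_left inf_le_left disjoint_compl_right
    have hsup : (z a ⊓ c) ⊔ ((z a)ᶜ ⊓ c) = c := by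
      rw [← inf_sup_right, sup_compl_eq_top, top_inf_eq]
    have h1 := ih hzt (z a ⊓ c) hc1 (s - w a) (by
      intro J hJ
      have h2 : c ∉ J.1 := fun h => hJ (J.1.lower inf_le_right h)
      have h3 : z a ∉ J.1 := fun h => hJ (J.1.lower inf_le_left h)
      have h4 := hs J h2
      rw [Finset.sum_insert ha, chi_of_notMem h3, mul_one] at h4
      linarith)
    have h2 := ih hzt ((z a)ᶜ ⊓ c) hc2 s (by
      intro J hJ
      have h2 : c ∉ J.1 := fun h => hJ (J.1.lower inf_le_right h)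
      have h3 : z a ∈ J.1 := by
        rcases J.2.mem_or_compl_mem (x := z a) with h | h
        · exact h
        · exact absurd (J.1.lower inf_le_left h) hJ
      have h4 := hs J h2
      rw [Finset.sum_insert ha, chi_of_mem h3, mul_zero, zero_add] at h4
      exact h4)
    have h3 : ∑ i ∈ t, w i * M (z i ⊓ c) =
        ∑ i ∈ t, w i * M (z i ⊓ (z a ⊓ c)) + ∑ i ∈ t, w i * M (z i ⊓ ((z a)ᶜ ⊓ c)) := by
      rw [← Finset.sum_add_distrib]
      refine Finset.sum_congr rfl fun i hi => ?_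
      rw [← mul_add, ← hadd _ (BooleanSubalgebra.inf_mem (hzt i hi) hc1) _
        (BooleanSubalgebra.inf_mem (hzt i hi) hc2) (hd.mono inf_le_right inf_le_right),
        ← inf_sup_left, hsup]
    have h4 : M c = M (z a ⊓ c) + M ((z a)ᶜ ⊓ c) := by
      rw [← hadd _ hc1 _ hc2 hd, hsup]
    rw [Finset.sum_insert ha, h3, h4]
    linarith

end Pool.Agent.H686R2.Kelley
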