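import Mathlib

/-!
# From a finitely additive function to a countably additive one
-/

set_option autoImplicit false

open Set Filter Topology

universe u

namespace Pool.Agent.H686R2.Sigma

variable {B : Type u} [CompleteBooleanAlgebra B]

/-- partitions of `x` into countably many pieces -/
def IsPart (x : B) (a : ℕ → B) : Prop := (Pairwise fun i j => Disjoint (a i) (a j)) ∧ (⨆ n, a n) = x

/-- the countably additive part -/
noncomputable def part (ν : B → ENNReal) (x : B) : ENNReal :=
  ⨅ (a : ℕ → B) (_ : IsPart x a), ∑' n, ν (a n)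

theorem part_le (ν : B → ENNReal) {x : B} {a : ℕ → B} (h : IsPart x a) :
    part ν x ≤ ∑' n, ν (a n) := iInf₂_le a h

theorem le_part (ν : B → ENNReal) {x : B} {r : ENNReal} (h : ∀ a, IsPart x a → r ≤ ∑' n, ν (a n)) :
    r ≤ part ν x := le_iInf₂ h

theorem exists_part (ν : B → ENNReal) {x : B} {r : ENNReal} (h : part ν x < r) :
    ∃ a, IsPart x a ∧ ∑' n, ν (a n) < r := by
  unfold part at h
  rw [iInf_lt_iff] at h
  obtain ⟨a, ha⟩ := h
  rw [iInf_lt_iff] at ha
  obtain ⟨h1, h2⟩ := ha
  exact ⟨a, h1, h2⟩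

/-- finite sums of disjoint pieces -/
theorem sum_le {ν : B → ENNReal} (h0 : ν ⊥ = 0) (hadd : ∀ b c, Disjoint b c → ν (b ⊔ c) = ν b + ν c)
    {b : ℕ → B} (hb : Pairwise fun i j => Disjoint (b i) (b j)) (N : ℕ) :
    ∑ n ∈ Finset.range N, ν (b n) = ν ((Finset.range N).sup b) := by
  induction N with
  | zero => simp [h0]
  | succ N ih =>
    rw [Finset.sum_range_succ, ih, ← hadd]
    · rw [Finset.range_add_one, Finset.sup_insert, sup_comm]
    · rw [Finset.disjoint_sup_left]
      intro i hi
      exact hb (Finset.mem_range.1 hi).ne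

theorem mono_of_add {ν : B → ENNReal} (hadd : ∀ b c, Disjoint b c → ν (b ⊔ c) = ν b + ν c)
    {b c : B} (h : b ≤ c) : ν b ≤ ν c := by
  have h1 : ν c = ν b + ν (c \ b) := by
    rw [← hadd b (c \ b) disjoint_sdiff_self_right, sup_sdiff_cancel_right h]
  rw [h1]
  exact le_self_add

theorem tsum_le {ν : B → ENNReal} (h0 : ν ⊥ = 0)
    (hadd : ∀ b c, Disjoint b c → ν (b ⊔ c) = ν b + ν c)
    {b : ℕ → B} (hb : Pairwise fun i j => Disjoint (b i) (b j)) {c : B} (hc : ∀ n, b n ≤ c) :
    ∑' n, ν (b n) ≤ ν c := by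
  apply ENNReal.tsum_le_of_sum_range_le
  intro N
  rw [sum_le h0 hadd hb]
  exact mono_of_add hadd (Finset.sup_le fun n _ => hc n)

/-- the countably additive part is countably additive -/
theorem part_sigma {ν : B → ENNReal} (h0 : ν ⊥ = 0)
    (hadd : ∀ b c, Disjoint b c → ν (b ⊔ c) = ν b + ν c)
    {b : ℕ → B} (hb : Pairwise fun i j => Disjoint (b i) (b j)) {x : B} (hx : (⨆ n, b n) = x)
    (hfin : ∀ y, part ν y ≠ ⊤) :
    part ν x = ∑' n, part ν (b n) := by
  apply le_antisymm
  · apply ENNReal.le_of_forall_pos_le_add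
    intro ε hε _
    have hε' : (ε : ENNReal) ≠ 0 := by exact_mod_cast hε.ne'
    obtain ⟨ε', hε1, hε2⟩ := ENNReal.exists_pos_sum_of_countable hε' ℕ
    have h1 : ∀ n, ∃ a, IsPart (b n) a ∧ ∑' k, ν (a k) < part ν (b n) + ε' n := by
      intro n
      apply exists_part
      exact ENNReal.lt_add_right (hfin _) (by exact_mod_cast (hε1 n).ne')
    choose a ha1 ha2 using h1
    let c : ℕ → B := fun p => a (Nat.unpair p).1 (Nat.unpair p).2
    have hc : IsPart x c := by
      constructor
      · intro p q hpq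
        by_cases h : (Nat.unpair p).1 = (Nat.unpair q).1
        · have h2 : (Nat.unpair p).2 ≠ (Nat.unpair q).2 := by
            intro h2
            apply hpq
            rw [← Nat.pair_unpair p, ← Nat.pair_unpair q, h, h2]
          show Disjoint (a (Nat.unpair p).1 (Nat.unpair p).2) (a (Nat.unpair q).1 (Nat.unpair q).2)
          rw [← h]
          exact (ha1 _).1 h2
        · refine (hb h).mono ?_ ?_
          · rw [← (ha1 (Nat.unpair p).1).2]
            exact le_iSup (a (Nat.unpair p).1) _
          · rw [← (ha1 (Nat.unpair q).1).2]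
            exact le_iSup (a (Nat.unpair q).1) _
      · rw [← hx]
        apply le_antisymm
        · refine iSup_le fun p => ?_
          refine le_trans ?_ (le_iSup b (Nat.unpair p).1)
          rw [← (ha1 (Nat.unpair p).1).2]
          exact le_iSup (a (Nat.unpair p).1) _
        · refine iSup_le fun n => ?_
          rw [← (ha1 n).2]
          refine iSup_le fun k => ?_
          refine le_trans (le_of_eq ?_) (le_iSup c (Nat.pair n k))
          show a n k = a _ _
          rw [Nat.unpair_pair]
    calc part ν x ≤ ∑' p, ν (c p) := part_le ν hc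
      _ = ∑' q : ℕ × ℕ, ν (a q.1 q.2) := by
          rw [← Equiv.tsum_eq Nat.pairEquiv]
          refine tsum_congr fun q => ?_
          show ν (a (Nat.unpair (Nat.pair q.1 q.2)).1 (Nat.unpair (Nat.pair q.1 q.2)).2) = _
          rw [Nat.unpair_pair]
      _ = ∑' n, ∑' k, ν (a n k) := ENNReal.tsum_prod (f := fun n k => ν (a n k))
      _ ≤ ∑' n, (part ν (b n) + ε' n) := ENNReal.tsum_le_tsum fun n => (ha2 n).le
      _ = ∑' n, part ν (b n) + ∑' n, (ε' n : ENNReal) := ENNReal.tsum_add
      _ ≤ ∑' n, part ν (b n) + ε := by gcongr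
  · apply le_part
    intro a ha
    have h1 : ∀ n, part ν (b n) ≤ ∑' k, ν (a k ⊓ b n) := by
      intro n
      apply part_le
      constructor
      · intro i j hij
        exact (ha.1 hij).mono inf_le_left inf_le_left
      · rw [← iSup_inf_eq, ha.2, ← hx, inf_eq_right]
        exact le_iSup b n
    calc ∑' n, part ν (b n) ≤ ∑' n, ∑' k, ν (a k ⊓ b n) := ENNReal.tsum_le_tsum h1
      _ = ∑' k, ∑' n, ν (a k ⊓ b n) := ENNReal.tsum_comm
      _ ≤ ∑' k, ν (a k) := by
          refine ENNReal.tsum_le_tsum fun k => ?_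
          apply tsum_le h0 hadd (b := fun n => a k ⊓ b n)
          · intro i j hij
            exact (hb hij).mono inf_le_right inf_le_right
          · intro n
            exact inf_le_left

end Pool.Agent.H686R2.Sigma
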